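import Pool.Agent.V11231.UTN.Games

/-!
# Linear networks of bond dimension `q ^ (2 n) (n ^ 2 + 1)` compute the value of unique games
-/

set_option autoImplicit false

open Finset

namespace Pool.Agent.V11231.UTN

open Pool.Agent.TH700.PA (mixp Net exists_product)

/-- interpolation -/
theorem exists_weights (m : ℕ) (b : Fin m → ℚ) :
    ∃ a : Fin m → ℚ, ∀ j : Fin m, ∑ i : Fin m, a i * ((i : ℕ) + 1 : ℚ) ^ (j : ℕ) = b j := by
  classical
  obtain ⟨v, hv⟩ : ∃ v : Fin m → ℚ, v = fun i : Fin m => (((i : ℕ) : ℚ) + 1) := ⟨_, rfl⟩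
  have hinj : Function.Injective v := by
    intro i j h
    rw [hv] at h
    have h1 : ((i : ℕ) : ℚ) = ((j : ℕ) : ℚ) := by
      have : ((i : ℕ) : ℚ) + 1 = ((j : ℕ) : ℚ) + 1 := h
      linarith
    exact Fin.ext (by exact_mod_cast h1)
  have hdet : (Matrix.vandermonde v).det ≠ 0 := Matrix.det_vandermonde_ne_zero_iff.2 hinj
  have hunit : IsUnit (Matrix.vandermonde v).det := isUnit_iff_ne_zero.2 hdet
  refine ⟨Matrix.vecMul b (Matrix.vandermonde v)⁻¹, fun j => ?_⟩
  have h1 : Matrix.vecMul (Matrix.vecMul b (Matrix.vandermonde v)⁻¹) (Matrix.vandermonde v) = b := by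
    rw [Matrix.vecMul_vecMul, Matrix.nonsing_inv_mul _ hunit, Matrix.vecMul_one]
  have h2 := congrFun h1 j
  rw [← h2]
  conv_rhs => rw [Matrix.vecMul, dotProduct]
  refine sum_congr rfl fun i _ => ?_
  rw [Matrix.vandermonde_apply, hv]

theorem upper_game (q : ℕ) {n : ℕ} (hn : 1 ≤ n) (s : ℕ) :
    ∃ (T : Net ℚ (Fin n × Fin n) (Uniq q) ((Vx n → Fin q) × Fin (n * n + 1)))
      (a : (Vx n → Fin q) × Fin (n * n + 1) → ℚ),
      T.Linear ∧ (∀ e, T.reads e = 1) ∧ T.size = 2 * (n * n) - 1 ∧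
        ∀ x, T.value a x ≠ 0 ↔
          ∃ LU LV : Fin n → Fin q, s ≤ Nat.card {e // Satd x LU LV e} := by
  classical
  have : Nonempty (Fin n) := ⟨⟨0, hn⟩⟩
  obtain ⟨T, h1, h2, h3, h4⟩ := exists_product (K := ℚ)
    (fun (e : Fin n × Fin n) (ω : Uniq q) (β : (Vx n → Fin q) × Fin (n * n + 1)) =>
      if ω.1 (β.1 (Sum.inl e.1)) = β.1 (Sum.inr e.2) then ((β.2 : ℕ) + 1 : ℚ) else 1)
  obtain ⟨a, ha⟩ := exists_weights (n * n + 1) (fun j => if s ≤ (j : ℕ) then 1 else 0)
  refine ⟨T, fun β => a β.2, h1, h2, ?_, fun x => ?_⟩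
  · rw [h3, Fintype.card_prod, Fintype.card_fin]
  · obtain ⟨c, hc⟩ : ∃ c : (Vx n → Fin q) → ℕ, c = fun β =>
        (univ.filter fun e : Fin n × Fin n => (x e).1 (β (Sum.inl e.1)) = β (Sum.inr e.2)).card :=
      ⟨_, rfl⟩
    have hcn : ∀ β, c β < n * n + 1 := by
      intro β
      rw [hc]
      have := card_le_univ (univ.filter fun e : Fin n × Fin n =>
        (x e).1 (β (Sum.inl e.1)) = β (Sum.inr e.2))
      rw [Fintype.card_prod, Fintype.card_fin] at this
      exact Nat.lt_succ_of_le this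
    have h5 : ∀ (β : Vx n → Fin q) (z : Fin (n * n + 1)),
        T.eval x (β, z) = ((z : ℕ) + 1 : ℚ) ^ (c β) := by
      intro β z
      rw [h4, prod_ite, prod_const_one, mul_one, prod_const, hc]
    have h6 : T.value (fun β => a β.2) x =
        ∑ β : Vx n → Fin q, (if s ≤ c β then (1 : ℚ) else 0) := by
      unfold Net.value
      rw [Fintype.sum_prod_type]
      refine sum_congr rfl fun β _ => ?_
      have h7 := ha ⟨c β, hcn β⟩
      simp only at h7
      rw [← h7]
      refine sum_congr rfl fun z _ => ?_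
      rw [h5]
    rw [h6, Ne, sum_eq_zero_iff_of_nonneg (fun β _ => by split_ifs <;> norm_num)]
    push Not
    constructor
    · rintro ⟨β, -, hβ⟩
      refine ⟨fun u => β (Sum.inl u), fun v => β (Sum.inr v), ?_⟩
      have h7 : s ≤ c β := by
        by_contra hcon
        exact hβ (if_neg hcon)
      rw [Nat.card_eq_fintype_card, Fintype.card_subtype]
      rw [hc] at h7
      simp only at h7
      refine h7.trans (le_of_eq ?_)
      congr 1
      ext e
      rw [mem_filter, mem_filter]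
      exact Iff.rfl
    · rintro ⟨LU, LV, h⟩
      refine ⟨Sum.elim LU LV, mem_univ _, ?_⟩
      have h7 : s ≤ c (Sum.elim LU LV) := by
        rw [Nat.card_eq_fintype_card, Fintype.card_subtype] at h
        rw [hc]
        refine h.trans (le_of_eq ?_)
        congr 1
        ext e
        rw [mem_filter, mem_filter]
        exact Iff.rfl
      rw [if_pos h7]
      exact one_ne_zero

end Pool.Agent.V11231.UTN
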