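import Pool.Agent.V11231.UTN.Maps
import Pool.Agent.TH700.PA.Density
import Pool.Agent.TH700.PA.Count

/-!
# Mixtures of satisfiable unique games have small value
-/

set_option autoImplicit false

open Finset

namespace Pool.Agent.V11231.UTN

open Pool.Agent.TH700.PA (mixp)

variable {n q t : ℕ}

/-- The vertices of the game. -/
abbrev Vx (n : ℕ) : Type := Fin n ⊕ Fin n

/-- The patterns: a labeling and arbitrary maps. -/
abbrev Pat (n q : ℕ) : Type := (Vx n → Fin q) × (Fin n × Fin n → Uniq q)

/-- The game of a pattern: the maps corrected so that the labeling satisfies all edges. -/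
def gm (P : Pat n q) : Fin n × Fin n → Uniq q :=
  fun e => fix (P.2 e) (P.1 (Sum.inl e.1)) (P.1 (Sum.inr e.2))

theorem gm_valueOne (P : Pat n q) : ValueOne (gm P) :=
  ⟨fun u => P.1 (Sum.inl u), fun v => P.1 (Sum.inr v), fun _ => fix_self _ _ _⟩

/-- Agreement at both ends. -/
def Ag (p : Fin n × Fin n → Fin t) (b : Fin t → Pat n q) (β : Vx n → Fin q) (e : Fin n × Fin n) :
    Prop :=
  (b (p e)).1 (Sum.inl e.1) = β (Sum.inl e.1) ∧ (b (p e)).1 (Sum.inr e.2) = β (Sum.inr e.2)

/-- Accidental satisfaction. -/
def Ac (p : Fin n × Fin n → Fin t) (b : Fin t → Pat n q) (β : Vx n → Fin q) (e : Fin n × Fin n) :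
    Prop :=
  (b (p e)).1 (Sum.inl e.1) ≠ β (Sum.inl e.1) ∧
    (gm (b (p e)) e).1 (β (Sum.inl e.1)) = β (Sum.inr e.2)

theorem satd_cases {p : Fin n × Fin n → Fin t} {b : Fin t → Pat n q} {β : Vx n → Fin q}
    {e : Fin n × Fin n}
    (h : Satd (mixp p gm b) (fun u => β (Sum.inl u)) (fun v => β (Sum.inr v)) e) :
    Ag p b β e ∨ Ac p b β e := by
  unfold Satd mixp at h
  by_cases h1 : (b (p e)).1 (Sum.inl e.1) = β (Sum.inl e.1)
  · refine Or.inl ⟨h1, ?_⟩
    have h' : (gm (b (p e)) e).1 (β (Sum.inl e.1)) = β (Sum.inr e.2) := h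
    rw [← h', ← h1]
    exact (fix_self _ _ _).symm
  · exact Or.inr ⟨h1, h⟩

open Classical in
/-- The coincidences of the labelings with `β`. -/
noncomputable def Co (b : Fin t → Pat n q) (β : Vx n → Fin q) : Finset (Fin t × Vx n) :=
  univ.filter (fun s => (b s.1).1 s.2 = β s.2)

open Classical in
theorem card_ag {y : ℕ} (p : Fin n × Fin n → Fin t)
    (hb : ∀ j, (univ.filter (fun e => p e = j)).card ≤ 2 * y ^ 2) (b : Fin t → Pat n q)
    (β : Vx n → Fin q) : (univ.filter (fun e => Ag p b β e)).card ≤ 2 * y * (Co b β).card := by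
  have h1 : (univ.filter (fun e => Ag p b β e)).card =
      ∑ j, ((univ.filter (fun e => Ag p b β e)).filter (fun e => p e = j)).card :=
    card_eq_sum_card_fiberwise (fun _ _ => mem_univ _)
  have h2 : (Co b β).card = ∑ j, ((Co b β).filter (fun s => s.1 = j)).card :=
    card_eq_sum_card_fiberwise (fun _ _ => mem_univ _)
  rw [h1, h2, mul_sum]
  refine sum_le_sum fun j _ => ?_
  have h3 : ((univ.filter (fun e => Ag p b β e)).filter (fun e => p e = j)).card ≤
      2 * y ^ 2 := by
    refine le_trans (card_le_card fun e he => ?_) (hb j)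
    exact mem_filter.2 ⟨mem_univ _, (mem_filter.1 he).2⟩
  have h4 : ((univ.filter (fun e => Ag p b β e)).filter (fun e => p e = j)).card ≤
      ((Co b β).filter (fun s => s.1 = j)).card * ((Co b β).filter (fun s => s.1 = j)).card := by
    rw [← card_product]
    refine card_le_card_of_injOn (fun e => ((j, Sum.inl e.1), (j, Sum.inr e.2)))
      (fun e he => ?_) (fun e _ e' _ hee => ?_)
    · rw [mem_coe, mem_filter, mem_filter] at he
      obtain ⟨⟨-, g1, g2⟩, rfl⟩ := he
      rw [mem_coe, mem_product]
      unfold Co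
      exact ⟨mem_filter.2 ⟨mem_filter.2 ⟨mem_univ _, g1⟩, rfl⟩,
        mem_filter.2 ⟨mem_filter.2 ⟨mem_univ _, g2⟩, rfl⟩⟩
    · have e1 := congrArg (fun r => r.1.2) hee
      have e2 := congrArg (fun r => r.2.2) hee
      exact Prod.ext (Sum.inl.inj e1) (Sum.inr.inj e2)
  obtain ⟨k, hk⟩ : ∃ k, k = ((Co b β).filter (fun s => s.1 = j)).card := ⟨_, rfl⟩
  rw [← hk] at h4 ⊢
  rcases le_total k (2 * y) with h5 | h5
  · exact h4.trans (Nat.mul_le_mul_right _ h5)
  · refine h3.trans ?_
    nlinarith

/-! ### counting -/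

theorem prod_ite_pow {ι : Type} [Fintype ι] [DecidableEq ι] (S : Finset ι) (r : ℕ) :
    ∏ i, (if i ∈ S then r else 1) = r ^ S.card := by
  rw [prod_ite, prod_const_one, mul_one, prod_const]
  congr 2
  ext i
  simp

theorem card_pat : Fintype.card (Pat n q) =
    q ^ (2 * n) * Fintype.card (Uniq q) ^ (n * n) := by
  rw [Fintype.card_prod, Fintype.card_fun, Fintype.card_fun, Fintype.card_fin, Fintype.card_sum,
    Fintype.card_prod, Fintype.card_fin, two_mul]

open Classical in
/-- The tuples with given coincidences. -/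
theorem card_coinc (β : Vx n → Fin q) (S : Finset (Fin t × Vx n)) :
    (univ.filter (fun b : Fin t → Pat n q => ∀ s ∈ S, (b s.1).1 s.2 = β s.2)).card *
      q ^ S.card ≤ Fintype.card (Pat n q) ^ t := by
  have h1 : univ.filter (fun b : Fin t → Pat n q => ∀ s ∈ S, (b s.1).1 s.2 = β s.2) ⊆
      Fintype.piFinset (fun j => (Fintype.piFinset (fun w =>
        if (j, w) ∈ S then ({β w} : Finset (Fin q)) else univ)) ×ˢ
          (univ : Finset (Fin n × Fin n → Uniq q))) := by
    intro b hb
    rw [Fintype.mem_piFinset]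
    intro j
    rw [mem_product, Fintype.mem_piFinset]
    refine ⟨fun w => ?_, mem_univ _⟩
    by_cases hw : (j, w) ∈ S
    · rw [if_pos hw, mem_singleton]
      exact (mem_filter.1 hb).2 (j, w) hw
    · rw [if_neg hw]
      exact mem_univ _
  refine (Nat.mul_le_mul_right _ (card_le_card h1)).trans (le_of_eq ?_)
  rw [Fintype.card_piFinset, ← prod_ite_pow S q, Fintype.prod_prod_type, ← prod_mul_distrib]
  have h2 : ∀ j : Fin t, ((Fintype.piFinset (fun w =>
        if (j, w) ∈ S then ({β w} : Finset (Fin q)) else univ)) ×ˢ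
          (univ : Finset (Fin n × Fin n → Uniq q))).card *
      ∏ w, (if (j, w) ∈ S then q else 1) = Fintype.card (Pat n q) := by
    intro j
    rw [card_product, Fintype.card_piFinset, card_univ, mul_right_comm, ← prod_mul_distrib]
    have h3 : ∀ w : Vx n, (if (j, w) ∈ S then ({β w} : Finset (Fin q)) else univ).card *
        (if (j, w) ∈ S then q else 1) = q := by
      intro w
      split_ifs <;> simp
    rw [prod_congr rfl fun w _ => h3 w, prod_const, card_univ, Fintype.card_prod]
    congr 1
    rw [Fintype.card_fun, Fintype.card_fin]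
  refine (prod_congr rfl fun j _ => h2 j).trans ?_
  rw [prod_const, card_univ, Fintype.card_fin]

open Classical in
/-- The tuples with given accidental satisfactions. -/
theorem card_accid (p : Fin n × Fin n → Fin t) (β : Vx n → Fin q) (S : Finset (Fin n × Fin n)) :
    (univ.filter (fun b : Fin t → Pat n q => ∀ e ∈ S, Ac p b β e)).card *
      (q - 1) ^ S.card ≤ Fintype.card (Pat n q) ^ t := by
  obtain ⟨Q, hQ⟩ : ∃ Q, Q = univ.filter (fun b : Fin t → Pat n q => ∀ e ∈ S, Ac p b β e) :=
    ⟨_, rfl⟩
  rw [← hQ]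
  have h1 : Q.card = ∑ ℓ : Fin t → (Vx n → Fin q),
      (Q.filter (fun b => (fun j => (b j).1) = ℓ)).card :=
    card_eq_sum_card_fiberwise (f := fun (b : Fin t → Pat n q) (j : Fin t) => (b j).1)
      (fun _ _ => mem_univ _)
  have h2 : ∀ ℓ : Fin t → (Vx n → Fin q),
      (Q.filter (fun b => (fun j => (b j).1) = ℓ)).card * (q - 1) ^ S.card ≤
        (Fintype.card (Uniq q) ^ (n * n)) ^ t := by
    intro ℓ
    -- the bad maps
    obtain ⟨F, hF⟩ : ∃ F : Fin t → Fin n × Fin n → Finset (Uniq q), F = fun j e =>
        if e ∈ S ∧ p e = j then univ.filter (fun ω : Uniq q =>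
          ℓ j (Sum.inl e.1) ≠ β (Sum.inl e.1) ∧
          (fix ω (ℓ j (Sum.inl e.1)) (ℓ j (Sum.inr e.2))).1 (β (Sum.inl e.1)) = β (Sum.inr e.2))
        else univ := ⟨_, rfl⟩
    have h3 : (Q.filter (fun b => (fun j => (b j).1) = ℓ)).card ≤
        (Fintype.piFinset (fun j => Fintype.piFinset (F j))).card := by
      refine card_le_card_of_injOn (fun b j => (b j).2) (fun b hb => ?_) (fun b hb b' hb' h => ?_)
      · rw [mem_coe, mem_filter, hQ, mem_filter] at hb
        obtain ⟨⟨-, hb1⟩, hb2⟩ := hb
        rw [mem_coe, Fintype.mem_piFinset]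
        intro j
        rw [Fintype.mem_piFinset]
        intro e
        rw [hF]
        by_cases he : e ∈ S ∧ p e = j
        · simp only [if_pos he]
          obtain ⟨he1, he2⟩ := he
          have h4 := hb1 e he1
          unfold Ac gm at h4
          rw [he2] at h4
          have h5 : (b j).1 = ℓ j := congrFun hb2 j
          rw [h5] at h4
          exact mem_filter.2 ⟨mem_univ _, h4⟩
        · simp only [if_neg he]
          exact mem_univ _
      · rw [mem_coe, mem_filter] at hb hb'
        funext j
        have h4 : (b j).1 = (b' j).1 := (congrFun hb.2 j).trans (congrFun hb'.2 j).symm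
        exact Prod.ext h4 (congrFun h j)
    refine (Nat.mul_le_mul_right _ h3).trans ?_
    have h4 : (q - 1) ^ S.card = ∏ j : Fin t, ∏ e : Fin n × Fin n,
        (if e ∈ S ∧ p e = j then (q - 1) else 1) := by
      rw [prod_comm, ← prod_ite_pow S (q - 1)]
      refine prod_congr rfl fun e _ => ?_
      by_cases he : e ∈ S
      · simp only [he, true_and, if_true]
        rw [prod_ite_eq]
        simp
      · simp [he]
    rw [h4, Fintype.card_piFinset, ← prod_mul_distrib]
    have h5 : ∀ j : Fin t, (Fintype.piFinset (F j)).card *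
        ∏ e : Fin n × Fin n, (if e ∈ S ∧ p e = j then (q - 1) else 1) ≤
          Fintype.card (Uniq q) ^ (n * n) := by
      intro j
      rw [Fintype.card_piFinset, ← prod_mul_distrib]
      calc ∏ e : Fin n × Fin n, ((F j e).card * (if e ∈ S ∧ p e = j then (q - 1) else 1)) ≤
          ∏ _e : Fin n × Fin n, Fintype.card (Uniq q) := by
            refine prod_le_prod' fun e _ => ?_
            rw [hF]
            by_cases he : e ∈ S ∧ p e = j
            · simp only [if_pos he]
              by_cases hne : ℓ j (Sum.inl e.1) = β (Sum.inl e.1)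
              · have h6 : univ.filter (fun ω : Uniq q =>
                    ℓ j (Sum.inl e.1) ≠ β (Sum.inl e.1) ∧
                    (fix ω (ℓ j (Sum.inl e.1)) (ℓ j (Sum.inr e.2))).1 (β (Sum.inl e.1)) =
                      β (Sum.inr e.2)) = ∅ := by
                  rw [filter_eq_empty_iff]
                  intro ω _ h
                  exact h.1 hne
                rw [h6, card_empty, zero_mul]
                exact Nat.zero_le _
              · rw [mul_comm]
                refine le_trans (Nat.mul_le_mul_left _ (card_le_card fun ω hω => ?_))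
                  (card_fix hne (ℓ j (Sum.inr e.2)) (β (Sum.inr e.2)))
                exact mem_filter.2 ⟨mem_univ _, (mem_filter.1 hω).2.2⟩
            · simp only [if_neg he, mul_one]
              exact le_of_eq card_univ
        _ = _ := by
          rw [prod_const, card_univ, Fintype.card_prod, Fintype.card_fin]
    calc _ ≤ ∏ _j : Fin t, Fintype.card (Uniq q) ^ (n * n) := prod_le_prod' fun j _ => h5 j
      _ = _ := by rw [prod_const, card_univ, Fintype.card_fin]
  rw [h1, sum_mul]
  refine (sum_le_sum fun ℓ _ => h2 ℓ).trans (le_of_eq ?_)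
  rw [sum_const, card_univ, Fintype.card_fun, Fintype.card_fun, Fintype.card_fin, Fintype.card_sum,
    Fintype.card_fin, smul_eq_mul, card_pat, Fintype.card_fin, mul_pow, two_mul]

end Pool.Agent.V11231.UTN
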