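import Pool.Agent.V11231.UTN.Defs
import Mathlib

/-!
# Counting permutations
-/

set_option autoImplicit false

open Finset

namespace Pool.Agent.V11231.UTN

variable {q : ℕ}

noncomputable instance : Fintype (Uniq q) := by
  classical
  unfold Uniq
  infer_instance

/-- Composition with a permutation of the values. -/
def post (σ : Equiv.Perm (Fin q)) (ω : Uniq q) : Uniq q :=
  ⟨fun i => σ (ω.1 i), σ.bijective.comp ω.2⟩

theorem post_injective (σ : Equiv.Perm (Fin q)) : Function.Injective (post σ) := by
  intro ω ω' h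
  refine Subtype.ext (funext fun i => ?_)
  have h1 := congrFun (congrArg Subtype.val h) i
  exact σ.injective h1

/-- The two values are nearly independent. -/
theorem card_two {a a' : Fin q} (haa : a ≠ a') (c d : Fin q) :
    (q - 1) * (univ.filter (fun ω : Uniq q => ω.1 a = c ∧ ω.1 a' = d)).card ≤
      (univ.filter (fun ω : Uniq q => ω.1 a = c)).card := by
  classical
  by_cases hcd : d = c
  · subst hcd
    have h1 : univ.filter (fun ω : Uniq q => ω.1 a = d ∧ ω.1 a' = d) = ∅ := by
      rw [filter_eq_empty_iff]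
      intro ω _ h
      exact haa (ω.2.1 (h.1.trans h.2.symm))
    rw [h1, card_empty, mul_zero]
    exact Nat.zero_le _
  · have h1 : ∀ d' ∈ (univ : Finset (Fin q)).erase c,
        (univ.filter (fun ω : Uniq q => ω.1 a = c ∧ ω.1 a' = d)).card ≤
        (univ.filter (fun ω : Uniq q => ω.1 a = c ∧ ω.1 a' = d')).card := by
      intro d' hd'
      rw [mem_erase] at hd'
      refine card_le_card_of_injOn (post (Equiv.swap d d')) (fun ω hω => ?_)
        (post_injective _).injOn
      rw [mem_coe, mem_filter] at hω ⊢
      refine ⟨mem_univ _, ?_, ?_⟩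
      · show Equiv.swap d d' (ω.1 a) = c
        rw [hω.2.1, Equiv.swap_apply_of_ne_of_ne (Ne.symm hcd) hd'.1.symm]
      · show Equiv.swap d d' (ω.1 a') = d'
        rw [hω.2.2, Equiv.swap_apply_left]
    have h2 : ∑ d' ∈ (univ : Finset (Fin q)).erase c,
        (univ.filter (fun ω : Uniq q => ω.1 a = c ∧ ω.1 a' = d')).card ≤
        (univ.filter (fun ω : Uniq q => ω.1 a = c)).card := by
      rw [← card_biUnion]
      · refine card_le_card fun ω hω => ?_
        obtain ⟨d', -, h⟩ := mem_biUnion.1 hω
        exact mem_filter.2 ⟨mem_univ _, (mem_filter.1 h).2.1⟩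
      · intro d₁ _ d₂ _ hne
        rw [Function.onFun, disjoint_left]
        intro ω h₁ h₂
        exact hne ((mem_filter.1 h₁).2.2.symm.trans (mem_filter.1 h₂).2.2)
    calc (q - 1) * (univ.filter (fun ω : Uniq q => ω.1 a = c ∧ ω.1 a' = d)).card =
        ∑ _d' ∈ (univ : Finset (Fin q)).erase c,
          (univ.filter (fun ω : Uniq q => ω.1 a = c ∧ ω.1 a' = d)).card := by
          rw [sum_const, card_erase_of_mem (mem_univ _), card_univ, Fintype.card_fin, smul_eq_mul]
      _ ≤ _ := (sum_le_sum h1).trans h2

/-- The map corrected such that the value at `a` is `b`. -/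
def fix (ω : Uniq q) (a b : Fin q) : Uniq q := post (Equiv.swap (ω.1 a) b) ω

theorem fix_self (ω : Uniq q) (a b : Fin q) : (fix ω a b).1 a = b :=
  Equiv.swap_apply_left _ _

/-- The values of the corrected map at the other places are nearly uniform. -/
theorem card_fix {a a' : Fin q} (haa : a ≠ a') (b b' : Fin q) :
    (q - 1) * (univ.filter (fun ω : Uniq q => (fix ω a b).1 a' = b')).card ≤
      Fintype.card (Uniq q) := by
  classical
  have h1 : (univ.filter (fun ω : Uniq q => (fix ω a b).1 a' = b')).card =
      ∑ c : Fin q, (univ.filter (fun ω : Uniq q => ω.1 a = c ∧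
        ω.1 a' = Equiv.swap c b b')).card := by
    rw [card_eq_sum_card_fiberwise (f := fun ω : Uniq q => ω.1 a) (t := univ)
      (fun _ _ => mem_univ _)]
    refine sum_congr rfl fun c _ => ?_
    congr 1
    ext ω
    simp only [mem_filter, mem_univ, true_and]
    constructor
    · rintro ⟨h, rfl⟩
      refine ⟨rfl, ?_⟩
      have h2 : Equiv.swap (ω.1 a) b (ω.1 a') = b' := h
      rw [← h2, Equiv.swap_apply_self]
    · rintro ⟨rfl, h⟩
      refine ⟨?_, rfl⟩
      show Equiv.swap (ω.1 a) b (ω.1 a') = b'
      rw [h, Equiv.swap_apply_self]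
  have h2 : ∑ c : Fin q, (univ.filter (fun ω : Uniq q => ω.1 a = c)).card =
      Fintype.card (Uniq q) := by
    rw [← card_univ, card_eq_sum_card_fiberwise (f := fun ω : Uniq q => ω.1 a) (t := univ)
      (fun _ _ => mem_univ _)]
  rw [h1, mul_sum, ← h2]
  exact sum_le_sum fun c _ => card_two haa _ _

end Pool.Agent.V11231.UTN
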